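import Pool.Agent.T9h3.LN.Spec

/-!
# Weak approximation in a Dedekind domain (project LN, piece C)
-/

set_option autoImplicit false

namespace Pool.Agent.T9h46.LN

open Pool.Agent.T9h3.LN

/-- An element close to `a` at `𝔔` is `a` times an element close to `1`. -/
theorem close_local {O : Type} [CommRing O] [IsDedekindDomain O] (𝔔 : Ideal O)
    (h𝔔 : Prime 𝔔) (n : ℕ) (a : O) (ha : a ≠ 0) :
    ∃ N : ℕ, ∀ A : O, A - a ∈ 𝔔 ^ N →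
      ∃ s t : O, s ∉ 𝔔 ∧ t ∉ 𝔔 ∧ s - t ∈ 𝔔 ^ n ∧ A * t = a * s := by
  have ha' : Ideal.span {a} ≠ (0 : Ideal O) := by
    simpa [Ideal.zero_eq_bot, Ideal.span_singleton_eq_bot] using ha
  obtain ⟨v, J, hJ, hv⟩ := WfDvdMonoid.max_power_factor ha' h𝔔.irreducible
  have hJ' : ¬ J ≤ 𝔔 := fun h => hJ (Ideal.dvd_iff_le.2 h)
  obtain ⟨j, hj, hj𝔔⟩ := SetLike.not_le_iff_exists.1 hJ'
  refine ⟨v + (n + 1), fun A hA => ?_⟩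
  have h1 : j * (A - a) ∈ Ideal.span {a} * 𝔔 ^ (n + 1) := by
    have h2 : Ideal.span {a} * 𝔔 ^ (n + 1) = J * 𝔔 ^ (v + (n + 1)) := by
      rw [hv, pow_add 𝔔 v (n + 1)]; ring
    rw [h2]
    exact Ideal.mul_mem_mul hj hA
  obtain ⟨w, hw, hwe⟩ := Ideal.mem_span_singleton_mul.1 h1
  have hw1 : w ∈ 𝔔 := Ideal.pow_le_self (Nat.succ_ne_zero n) hw
  refine ⟨j + w, j, fun h => hj𝔔 ?_, hj𝔔, ?_, ?_⟩
  · have := 𝔔.sub_mem h hw1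
    simpa using this
  · have : j + w - j = w := by ring
    rw [this]
    exact Ideal.pow_le_pow_right (Nat.le_succ n) hw
  · have : a * (j + w) = a * j + a * w := by ring
    rw [this, hwe]; ring

theorem appr : S_Appr := by
  intro O M _ _ _ _ _ _ S hS n y hy
  classical
  rcases S.eq_empty_or_nonempty with rfl | hne
  · exact ⟨1, one_ne_zero, by simp⟩
  obtain ⟨d, hd⟩ := IsLocalization.exist_integer_multiples (nonZeroDivisors O) S y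
  have hdn : (d : O) ≠ 0 := nonZeroDivisors.ne_zero d.2
  have hinj : Function.Injective (algebraMap O M) := IsFractionRing.injective O M
  have hdM : algebraMap O M (d : O) ≠ 0 := by
    rw [Ne, ← map_zero (algebraMap O M)]; exact fun h => hdn (hinj h)
  have hd2 : ∀ 𝔔 ∈ S, ∃ a : O, algebraMap O M a = algebraMap O M (d : O) * y 𝔔 := by
    intro 𝔔 h𝔔
    obtain ⟨a, ha⟩ := hd 𝔔 h𝔔
    exact ⟨a, by rw [ha, Algebra.smul_def]⟩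
  choose! a ha using hd2
  have ha0 : ∀ 𝔔 ∈ S, a 𝔔 ≠ 0 := by
    intro 𝔔 h𝔔 h
    have := ha 𝔔 h𝔔
    rw [h, map_zero] at this
    exact mul_ne_zero hdM (hy 𝔔 h𝔔) this.symm
  have hpr : ∀ 𝔔 ∈ S, Prime 𝔔 := fun 𝔔 h𝔔 =>
    Ideal.prime_of_isPrime (hS 𝔔 h𝔔).2 (hS 𝔔 h𝔔).1.isPrime
  have hN : ∀ 𝔔 ∈ S, ∃ N : ℕ, ∀ A : O, A - a 𝔔 ∈ 𝔔 ^ N →
      ∃ s t : O, s ∉ 𝔔 ∧ t ∉ 𝔔 ∧ s - t ∈ 𝔔 ^ n ∧ A * t = a 𝔔 * s := fun 𝔔 h𝔔 =>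
    close_local 𝔔 (hpr 𝔔 h𝔔) n (a 𝔔) (ha0 𝔔 h𝔔)
  choose! N hN using hN
  obtain ⟨A, hA⟩ := IsDedekindDomain.exists_forall_sub_mem_ideal (s := S) (fun 𝔔 : Ideal O => 𝔔) N
    hpr (fun _ _ _ _ h => h) (fun 𝔔 => a 𝔔.1)
  have key : ∀ 𝔔 ∈ S, ∃ s t : O, s ∉ 𝔔 ∧ t ∉ 𝔔 ∧ s - t ∈ 𝔔 ^ n ∧ A * t = a 𝔔 * s :=
    fun 𝔔 h𝔔 => hN 𝔔 h𝔔 A (hA 𝔔 h𝔔)
  have hA0 : A ≠ 0 := by
    obtain ⟨𝔔, h𝔔⟩ := hne
    obtain ⟨s, t, hs, ht, -, he⟩ := key 𝔔 h𝔔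
    rintro rfl
    rw [zero_mul] at he
    rcases mul_eq_zero.1 he.symm with h | h
    · exact ha0 𝔔 h𝔔 h
    · exact hs (h ▸ 𝔔.zero_mem)
  have hAM : algebraMap O M A ≠ 0 := by
    rw [Ne, ← map_zero (algebraMap O M)]; exact fun h => hA0 (hinj h)
  refine ⟨algebraMap O M A / algebraMap O M d, div_ne_zero hAM hdM, fun 𝔔 h𝔔 => ?_⟩
  obtain ⟨s, t, hs, ht, hst, he⟩ := key 𝔔 h𝔔
  refine ⟨s, t, hs, ht, hst, ?_⟩
  have h1 : algebraMap O M A * algebraMap O M t = algebraMap O M (a 𝔔) * algebraMap O M s := by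
    rw [← map_mul, he, map_mul]
  rw [ha 𝔔 h𝔔] at h1
  have hyq := hy 𝔔 h𝔔
  field_simp
  linear_combination h1

end Pool.Agent.T9h46.LN
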